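import Pool.Agent.PRT.StmtsC

/-!
# Squad PRT, row BOA: displacement from the first derivative
-/

set_option autoImplicit false

namespace Pool.Agent.PRT.H1

open Set
open scoped ContDiff

theorem it_fd {g : E → E} (hg : Differentiable ℝ g) {b : ℝ} (hb : 0 ≤ b)
    (h : ∀ z, ‖fderiv ℝ g z‖ ≤ b) (j : ℕ) :
    Differentiable ℝ (g^[j]) ∧ ∀ z, ‖fderiv ℝ (g^[j]) z‖ ≤ b ^ j := by
  induction j with
  | zero =>
    refine ⟨differentiable_id, fun z => ?_⟩
    rw [Function.iterate_zero, fderiv_id, pow_zero]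
    exact ContinuousLinearMap.norm_id_le
  | succ j ih =>
    rw [Function.iterate_succ']
    refine ⟨hg.comp ih.1, fun z => ?_⟩
    rw [fderiv_comp z (hg _) (ih.1 z), pow_succ']
    exact (ContinuousLinearMap.opNorm_comp_le _ _).trans
      (mul_le_mul (h _) (ih.2 z) (norm_nonneg _) hb)

theorem tele (g : E → E) (z : E) (m : ℕ) :
    g^[m] z - z = ∑ j ∈ Finset.range m, (g (g^[j] z) - g^[j] z) := by
  induction m with
  | zero => simp
  | succ m ih =>
    rw [Finset.sum_range_succ, ← ih, Function.iterate_succ_apply']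
    abel

theorem boa (h1 : DspStmt) : BoaStmt := by
  intro g v C a lf v0 hva ha hd z
  have ha0 : 0 < a := v0.trans_le hva
  have hgd : Differentiable ℝ g := lf.sm.differentiable (by simp)
  have hφd : Differentiable ℝ (fun z => g z - z) := hgd.sub differentiable_id
  have hg1 : ∀ z, ‖fderiv ℝ g z‖ ≤ 1 + a := by
    intro z
    have e : fderiv ℝ g z = fderiv ℝ (fun z => g z - z) z + ContinuousLinearMap.id ℝ E := by
      have e2 : fderiv ℝ (fun z => g z - z) z = fderiv ℝ g z - ContinuousLinearMap.id ℝ E :=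
        ((hgd z).hasFDerivAt.fun_sub (hasFDerivAt_id z)).fderiv
      rw [e2, sub_add_cancel]
    rw [e]
    calc _ ≤ ‖fderiv ℝ (fun z => g z - z) z‖ + ‖ContinuousLinearMap.id ℝ E‖ := norm_add_le _ _
      _ ≤ a + 1 := add_le_add (hd z) ContinuousLinearMap.norm_id_le
      _ = 1 + a := add_comm _ _
  obtain ⟨m, hm⟩ : ∃ m : ℕ, m = ⌊1 / (4 * a)⌋₊ := ⟨_, rfl⟩
  have h4a : (0 : ℝ) < 4 * a := by positivity
  have hm1 : (m : ℝ) ≤ 1 / (4 * a) := by rw [hm]; exact Nat.floor_le (by positivity)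
  have hm2 : 1 / (4 * a) < (m : ℝ) + 1 := by rw [hm]; exact Nat.lt_floor_add_one _
  have hma : (m : ℝ) * a ≤ 1 / 4 := by
    have := (le_div_iff₀ h4a).1 hm1
    linarith
  have hma8 : 1 / 8 ≤ (m : ℝ) * a := by
    have := (div_lt_iff₀ h4a).1 hm2
    nlinarith
  have hmpos : (0 : ℝ) < m := by
    by_contra hcon
    push Not at hcon
    nlinarith
  have hm1' : 1 ≤ m := by exact_mod_cast hmpos
  -- the derivatives of the iterates
  have hfd : ∀ j ≤ m, ∀ z, ‖fderiv ℝ (g^[j]) z‖ ≤ 2 := by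
    intro j hj z
    refine ((it_fd hgd (by positivity) hg1 j).2 z).trans ?_
    have hjm : (j : ℝ) ≤ m := by exact_mod_cast hj
    have e1 : (1 + a) ^ j ≤ Real.exp (1 / 4) := by
      calc (1 + a) ^ j ≤ (Real.exp a) ^ j :=
            pow_le_pow_left₀ (by positivity) (by linarith [Real.add_one_le_exp a]) j
        _ = Real.exp (j * a) := by rw [← Real.exp_nat_mul]
        _ ≤ Real.exp (1 / 4) := Real.exp_le_exp.2 (by nlinarith)
    have e2 : Real.exp (1 / 4) ≤ 2 := by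
      have h3 : Real.exp (1 / 4) ^ 4 = Real.exp 1 := by
        rw [← Real.exp_nat_mul]
        norm_num
      by_contra hcon
      push Not at hcon
      have h5 : (2 : ℝ) ^ 4 < Real.exp (1 / 4) ^ 4 := pow_lt_pow_left₀ hcon (by norm_num) (by norm_num)
      rw [h3] at h5
      have := Real.exp_one_lt_d9
      norm_num at h5
      linarith
    exact e1.trans e2
  obtain ⟨C1, hC1⟩ : ∃ C1 : ℝ, C1 = 2 * (C + 2) ^ 2 := ⟨_, rfl⟩
  have hC10 : 0 ≤ C1 := by rw [hC1]; positivity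
  obtain ⟨s, hs⟩ : ∃ s : ℝ, s = Real.sqrt (m * ‖v‖) := ⟨_, rfl⟩
  obtain ⟨r, hr⟩ : ∃ r : ℝ, r = Real.sqrt (a * ‖v‖) := ⟨_, rfl⟩
  have hs0 : 0 ≤ s := by rw [hs]; exact Real.sqrt_nonneg _
  have hr0 : 0 ≤ r := by rw [hr]; exact Real.sqrt_nonneg _
  have hs2 : s ^ 2 = m * ‖v‖ := by rw [hs, Real.sq_sqrt (by positivity)]
  have hr2 : r ^ 2 = a * ‖v‖ := by rw [hr, Real.sq_sqrt (by positivity)]
  have hmv : (m : ℝ) * ‖v‖ ≤ 1 / 4 := (mul_le_mul_of_nonneg_left hva hmpos.le).trans hma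
  have hv0 : v ≠ 0 := norm_pos_iff.1 v0
  have hT : ∀ j ≤ m, ‖g^[j] z - z‖ ≤ 3 * C1 * s := by
    intro j hj
    rcases Nat.eq_zero_or_pos j with rfl | hj0
    · simp only [Function.iterate_zero, id_eq, sub_self, norm_zero]
      positivity
    · have hjm : (j : ℝ) ≤ m := by exact_mod_cast hj
      have hjv : (j : ℝ) * ‖v‖ ≤ m * ‖v‖ := mul_le_mul_of_nonneg_right hjm v0.le
      have := h1 g v C lf hv0 j hj0 (by linarith) 2 (by norm_num) (hfd j hj) z
      refine this.trans ?_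
      rw [← hC1]
      have e1 : Real.sqrt (j * ‖v‖) ≤ s := by rw [hs]; exact Real.sqrt_le_sqrt hjv
      have e2 : (1 + 2 : ℝ) * C1 = 3 * C1 := by ring
      rw [e2]
      exact mul_le_mul_of_nonneg_left e1 (by positivity)
  -- the mean value inequality
  have hmv2 : ∀ x y : E, ‖(g y - y) - (g x - x)‖ ≤ a * ‖y - x‖ := fun x y =>
    convex_univ.norm_image_sub_le_of_norm_fderiv_le (f := fun z => g z - z)
      (fun w _ => hφd w) (fun w _ => hd w) (mem_univ x) (mem_univ y)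
  have hsum : (m : ℝ) • (g z - z) = (g^[m] z - z) -
      ∑ j ∈ Finset.range m, ((g (g^[j] z) - g^[j] z) - (g z - z)) := by
    rw [Finset.sum_sub_distrib, ← tele, Finset.sum_const, Finset.card_range, Nat.cast_smul_eq_nsmul]
    abel
  have hn : (m : ℝ) * ‖g z - z‖ ≤ 3 * C1 * s + m * (a * (3 * C1 * s)) := by
    have e1 : (m : ℝ) * ‖g z - z‖ = ‖(m : ℝ) • (g z - z)‖ := by
      rw [norm_smul, Real.norm_of_nonneg hmpos.le]
    rw [e1, hsum]
    refine (norm_sub_le _ _).trans (add_le_add (hT m le_rfl) ?_)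
    refine (norm_sum_le _ _).trans ?_
    calc _ ≤ ∑ j ∈ Finset.range m, a * (3 * C1 * s) := by
          refine Finset.sum_le_sum fun j hj => ?_
          exact (hmv2 z _).trans
            (mul_le_mul_of_nonneg_left (hT j (Finset.mem_range.1 hj).le) ha0.le)
      _ = m * (a * (3 * C1 * s)) := by
          rw [Finset.sum_const, Finset.card_range, nsmul_eq_mul]
  have hn2 : (m : ℝ) * ‖g z - z‖ ≤ 15 / 4 * C1 * s := by
    have e1 : (m : ℝ) * (a * (3 * C1 * s)) ≤ 1 / 4 * (3 * C1 * s) := by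
      calc (m : ℝ) * (a * (3 * C1 * s)) = (m * a) * (3 * C1 * s) := by ring
        _ ≤ 1 / 4 * (3 * C1 * s) := mul_le_mul_of_nonneg_right hma (by positivity)
    linarith
  have hsr : 15 / 4 * s ≤ 11 * r * m := by
    apply abs_le_of_sq_le_sq' _ (by positivity) |>.2
    have e1 : (15 / 4 * s) ^ 2 = 225 / 16 * (m * ‖v‖) := by rw [mul_pow, hs2]; norm_num
    have e2 : (11 * r * m) ^ 2 = 121 * (a * ‖v‖) * m ^ 2 := by rw [mul_pow, mul_pow, hr2]; norm_num
    rw [e1, e2]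
    have e3 : 121 * (a * ‖v‖) * (m : ℝ) ^ 2 = 121 * (m * a) * (m * ‖v‖) := by ring
    rw [e3]
    have e4 : (0 : ℝ) < m * ‖v‖ := by positivity
    nlinarith
  have hfin : (m : ℝ) * ‖g z - z‖ ≤ m * (11 * C1 * r) := by
    calc (m : ℝ) * ‖g z - z‖ ≤ C1 * (15 / 4 * s) := by linarith
      _ ≤ C1 * (11 * r * m) := mul_le_mul_of_nonneg_left hsr hC10
      _ = m * (11 * C1 * r) := by ring
  have := le_of_mul_le_mul_left hfin hmpos
  rw [hC1, hr] at this
  exact this

end Pool.Agent.PRT.H1
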