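import Pool.Agent.PRT.StmtsA

/-!
# Squad PRT, row WND: Poincare-Miranda in dimension 2 by a continuous logarithm
-/

set_option autoImplicit false

namespace Pool.Agent.PRT.H1

open Set

/-- a continuous function on `[0,1]` with positive sine stays in one interval -/
theorem br (φ : ℝ → ℝ) (hφ : Continuous φ) (h : ∀ s ∈ Icc (0 : ℝ) 1, 0 < Real.sin (φ s)) :
    ∃ j : ℤ, ∀ s ∈ Icc (0 : ℝ) 1, (j : ℝ) * (2 * Real.pi) < φ s ∧
      φ s < (j : ℝ) * (2 * Real.pi) + Real.pi := by
  have hpi := Real.pi_pos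
  have h0 : (0 : ℝ) ∈ Icc (0 : ℝ) 1 := ⟨le_rfl, zero_le_one⟩
  obtain ⟨j, hj⟩ : ∃ j : ℤ, j = ⌊φ 0 / (2 * Real.pi)⌋ := ⟨_, rfl⟩
  have h2pi : (0 : ℝ) < 2 * Real.pi := by positivity
  have a1 : (j : ℝ) * (2 * Real.pi) ≤ φ 0 := by
    have : (j : ℝ) ≤ φ 0 / (2 * Real.pi) := by rw [hj]; exact Int.floor_le _
    exact (le_div_iff₀ h2pi).1 this
  have a2 : φ 0 < ((j : ℝ) + 1) * (2 * Real.pi) := by
    have : φ 0 / (2 * Real.pi) < (j : ℝ) + 1 := by rw [hj]; exact Int.lt_floor_add_one _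
    exact (div_lt_iff₀ h2pi).1 this
  have z1 : Real.sin ((j : ℝ) * (2 * Real.pi)) = 0 := by
    have := Real.sin_int_mul_pi (2 * j)
    rw [← this]
    congr 1
    push_cast
    ring
  have z2 : Real.sin ((j : ℝ) * (2 * Real.pi) + Real.pi) = 0 := by
    rw [Real.sin_add_pi, z1, neg_zero]
  have b2 : φ 0 < (j : ℝ) * (2 * Real.pi) + Real.pi := by
    by_contra hcon
    push Not at hcon
    have c1 : Real.sin (φ 0 - ((j + 1 : ℤ) : ℝ) * (2 * Real.pi)) ≤ 0 := by
      apply Real.sin_nonpos_of_nonpos_of_neg_pi_le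
      · push_cast
        linarith
      · push_cast
        linarith
    rw [Real.sin_sub_int_mul_two_pi] at c1
    exact absurd (h 0 h0) (not_lt.2 c1)
  have b1 : (j : ℝ) * (2 * Real.pi) < φ 0 := by
    rcases a1.lt_or_eq with h1 | h1
    · exact h1
    · exfalso
      have := h 0 h0
      rw [← h1, z1] at this
      exact lt_irrefl _ this
  refine ⟨j, fun s hs => ⟨?_, ?_⟩⟩
  · by_contra hcon
    push Not at hcon
    have hiv := intermediate_value_Icc' hs.1 hφ.continuousOn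
    obtain ⟨u, hu, hu'⟩ := hiv ⟨hcon, b1.le⟩
    have := h u ⟨hu.1, hu.2.trans hs.2⟩
    rw [hu', z1] at this
    exact lt_irrefl _ this
  · by_contra hcon
    push Not at hcon
    have hiv := intermediate_value_Icc hs.1 hφ.continuousOn
    obtain ⟨u, hu, hu'⟩ := hiv ⟨b2.le, hcon⟩
    have := h u ⟨hu.1, hu.2.trans hs.2⟩
    rw [hu', z2] at this
    exact lt_irrefl _ this

/-- the projection to `[0,1]` -/
def cl (x : ℝ) : ℝ := max 0 (min x 1)

theorem cl_cont : Continuous cl := by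
  unfold cl
  fun_prop

theorem cl_mem (x : ℝ) : cl x ∈ Icc (0 : ℝ) 1 :=
  ⟨le_max_left _ _, max_le zero_le_one (min_le_right _ _)⟩

theorem cl_id {x : ℝ} (hx : x ∈ Icc (0 : ℝ) 1) : cl x = x := by
  unfold cl
  rw [min_eq_left hx.2, max_eq_right hx.1]

theorem wnd : WndStmt := by
  intro f hf hl hr hb ht
  by_contra hno
  push Not at hno
  have hpi := Real.pi_pos
  have h0 : (0 : ℝ) ∈ Icc (0 : ℝ) 1 := ⟨le_rfl, zero_le_one⟩
  have h1 : (1 : ℝ) ∈ Icc (0 : ℝ) 1 := ⟨zero_le_one, le_rfl⟩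
  obtain ⟨F, hF⟩ : ∃ F : C(ℝ × ℝ, ℂ), ∀ z : ℝ × ℝ,
      F z = ⟨(f (cl z.1, cl z.2)).1, (f (cl z.1, cl z.2)).2⟩ := by
    have hc : Continuous fun z : ℝ × ℝ =>
        (((f (cl z.1, cl z.2)).1 : ℂ) + ((f (cl z.1, cl z.2)).2 : ℂ) * Complex.I) := by
      have := cl_cont
      fun_prop
    refine ⟨⟨_, hc⟩, fun z => ?_⟩
    simp only [ContinuousMap.coe_mk]
    apply Complex.ext <;> simp
  have hne : ∀ z, F z ∈ ({0}ᶜ : Set ℂ) := by
    intro z hz
    have hz' : F z = 0 := hz
    rw [hF] at hz'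
    have e1 := congrArg Complex.re hz'
    have e2 := congrArg Complex.im hz'
    simp only [Complex.zero_re, Complex.zero_im] at e1 e2
    exact hno (cl z.1) (cl_mem _) (cl z.2) (cl_mem _) (Prod.ext e1 e2)
  have hlog : Complex.exp (Complex.log (F (0, 0))) = F (0, 0) := Complex.exp_log (hne (0, 0))
  obtain ⟨g, ⟨-, hg⟩, -⟩ := Complex.isCoveringMapOn_exp.existsUnique_continuousMap_lifts F hlog hne
  have hg' : ∀ z, Complex.exp (g z) = F z := fun z => congrFun hg z
  have hre : ∀ s ∈ Icc (0 : ℝ) 1, ∀ t ∈ Icc (0 : ℝ) 1,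
      (f (s, t)).1 = Real.exp (g (s, t)).re * Real.cos (g (s, t)).im := by
    intro s hs t ht
    have := congrArg Complex.re (hg' (s, t))
    rw [Complex.exp_re, hF, cl_id hs, cl_id ht] at this
    exact this.symm
  have him : ∀ s ∈ Icc (0 : ℝ) 1, ∀ t ∈ Icc (0 : ℝ) 1,
      (f (s, t)).2 = Real.exp (g (s, t)).re * Real.sin (g (s, t)).im := by
    intro s hs t ht
    have := congrArg Complex.im (hg' (s, t))
    rw [Complex.exp_im, hF, cl_id hs, cl_id ht] at this
    exact this.symm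
  have gc : Continuous fun z : ℝ × ℝ => (g z).im := Complex.continuous_im.comp g.continuous
  have pos : ∀ {a b : ℝ}, 0 < Real.exp a * b → 0 < b := fun h =>
    (pos_iff_pos_of_mul_pos h).1 (Real.exp_pos _)
  -- the four sides
  obtain ⟨j0, B⟩ := br (fun s => (g (s, 0)).im + Real.pi)
    ((gc.comp (by fun_prop : Continuous fun s : ℝ => (s, (0 : ℝ)))).add continuous_const) (by
      intro s hs
      rw [Real.sin_add_pi]
      have := hb s hs
      rw [him s hs 0 h0] at this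
      apply pos (a := (g (s, 0)).re)
      linarith)
  obtain ⟨j1, R⟩ := br (fun t => (g (1, t)).im + Real.pi / 2)
    ((gc.comp (by fun_prop : Continuous fun t : ℝ => ((1 : ℝ), t))).add continuous_const) (by
      intro t ht
      rw [Real.sin_add_pi_div_two]
      have := hr t ht
      rw [hre 1 h1 t ht] at this
      exact pos this)
  obtain ⟨j2, T⟩ := br (fun s => (g (s, 1)).im)
    (gc.comp (by fun_prop : Continuous fun s : ℝ => (s, (1 : ℝ)))) (by
      intro s hs
      have := ht s hs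
      rw [him s hs 1 h1] at this
      exact pos this)
  obtain ⟨j3, L⟩ := br (fun t => (g (0, t)).im - Real.pi / 2)
    ((gc.comp (by fun_prop : Continuous fun t : ℝ => ((0 : ℝ), t))).sub continuous_const) (by
      intro t ht
      rw [Real.sin_sub_pi_div_two]
      have := hl t ht
      rw [hre 0 h0 t ht] at this
      apply pos (a := (g (0, t)).re)
      linarith)
  have B0 := B 0 h0
  have B1 := B 1 h1
  have R0 := R 0 h0
  have R1 := R 1 h1
  have T0 := T 0 h0
  have T1 := T 1 h1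
  have L0 := L 0 h0
  have L1 := L 1 h1
  have hcancel : ∀ {a b : ℤ} {c : ℝ}, (a : ℝ) * (2 * Real.pi) < (b : ℝ) * (2 * Real.pi) + c →
      c < 2 * Real.pi → a ≤ b := by
    intro a b c h hc
    by_contra hcon
    push Not at hcon
    have : (b : ℝ) + 1 ≤ a := by exact_mod_cast hcon
    nlinarith
  -- bottom: `(2 j0 - 1) π < θ < 2 j0 π`
  have e1 : j0 ≤ j1 := hcancel (a := j0) (b := j1) (c := Real.pi / 2 + Real.pi)
    (by linarith [B1.1, R0.2]) (by linarith)
  have e2 : j1 ≤ j2 := hcancel (a := j1) (b := j2) (c := Real.pi / 2 + Real.pi)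
    (by linarith [R1.1, T1.2]) (by linarith)
  have e3 : j2 ≤ j3 := hcancel (a := j2) (b := j3) (c := Real.pi / 2 + Real.pi)
    (by linarith [T0.1, L1.2]) (by linarith)
  have e4 : j3 + 1 ≤ j0 := by
    apply hcancel (a := j3 + 1) (b := j0) (c := Real.pi / 2 + Real.pi) _ (by linarith)
    push_cast
    linarith [L0.1, B0.2]
  omega

end Pool.Agent.PRT.H1
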